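import Pool.Agent.Y187.WQ.Stm

/-!
# Project WQ: Jensen's inequality for averages under a conditional expectation (WQ-JEN)
-/

set_option autoImplicit false

open scoped ComplexOrder InnerProductSpace
open Finset Filter

noncomputable section

namespace Pool.Agent.Y672.WQ

open H759R2.Kad (IsFac IsPr Prj Fnt)
open Pool.Agent.Y187.WQ

/-- Operator convexity: an identity. -/
theorem convex_id {A : Type} [Ring A] [Algebra ℂ A] {ι : Type} [Fintype ι] (t : ι → ℂ)
    (ht : ∑ k, t k = 1) (y y' : ι → A) (q : A) :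
    ∑ k, t k • ((y' k - ∑ j, t j • y' j) * q * (y k - ∑ j, t j • y j)) =
      ∑ k, t k • (y' k * q * y k) - (∑ j, t j • y' j) * q * (∑ j, t j • y j) := by
  set z := ∑ j, t j • y j with hz
  set z' := ∑ j, t j • y' j with hz'
  have h1 : ∀ k, t k • ((y' k - z') * q * (y k - z)) = t k • (y' k * q * y k) -
      (t k • y' k) * q * z - z' * q * (t k • y k) + t k • (z' * q * z) := by
    intro k
    rw [smul_mul_assoc, smul_mul_assoc, mul_smul_comm, ← smul_sub, ← smul_sub, ← smul_add]
    congr 1
    noncomm_ring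
  simp only [h1]
  rw [Finset.sum_add_distrib, Finset.sum_sub_distrib, Finset.sum_sub_distrib, ← Finset.sum_smul, ht,
    one_smul, ← Finset.mul_sum, ← Finset.sum_mul, ← Finset.sum_mul, ← hz, ← hz']
  abel

variable {H : Type} [NormedAddCommGroup H] [InnerProductSpace ℂ H] [CompleteSpace H]

theorem smul_mem' (M : VonNeumannAlgebra H) (c : ℂ) {x : H →L[ℂ] H} (hx : x ∈ M) : c • x ∈ M :=
  M.toStarSubalgebra.smul_mem hx c

theorem E_zero {N M : VonNeumannAlgebra H} {E : (H →L[ℂ] H) → (H →L[ℂ] H)} (h : IsCE N M E) :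
    E 0 = 0 := by
  have h1 := h.smul 0 0 (zero_mem M)
  rwa [zero_smul, zero_smul] at h1

theorem E_sum {N M : VonNeumannAlgebra H} {E : (H →L[ℂ] H) → (H →L[ℂ] H)} (h : IsCE N M E)
    {ι : Type} (s : Finset ι) (x : ι → (H →L[ℂ] H)) (hx : ∀ k, x k ∈ M) :
    E (∑ k ∈ s, x k) = ∑ k ∈ s, E (x k) := by
  classical
  induction s using Finset.induction_on with
  | empty => rw [Finset.sum_empty, Finset.sum_empty, E_zero h]
  | insert k s hk ih =>
    rw [Finset.sum_insert hk, Finset.sum_insert hk, h.add _ (hx k) _ (sum_mem fun j _ => hx j), ih]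

theorem E_mono {N M : VonNeumannAlgebra H} {E : (H →L[ℂ] H) → (H →L[ℂ] H)} (h : IsCE N M E)
    {a b : H →L[ℂ] H} (ha : a ∈ M) (hb : b ∈ M) (hab : a ≤ b) : E a ≤ E b := by
  have h1 : E b = E a + E (b - a) := by
    rw [← h.add _ ha _ (sub_mem hb ha), add_sub_cancel]
  rw [h1]
  exact le_add_of_nonneg_right (h.pos _ (sub_mem hb ha) (sub_nonneg.mpr hab))

/-- Jensen's inequality for averages. -/
theorem t_jen : W_jen := by
  intro H _ _ _ N M E hE q hq hqp y hy α
  let _ := α.fin
  have hap : ∀ z, α.ap z = ∑ k, ((α.t k : ℝ) : ℂ) • (α.u k * z * star (α.u k)) := fun _ => rfl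
  have huM : ∀ k, α.u k ∈ M := fun k => hE.sub _ (α.hN k)
  have hqM : q ∈ M := hE.sub _ hq
  have hut : ∀ k, star (α.u k) * α.u k = 1 := fun k => (Unitary.mem_iff.mp (α.hu k)).1
  have hus : ∀ k, star (α.u k) * q = q * star (α.u k) := by
    intro k
    have h1 := congrArg star (α.hq k)
    rw [star_mul, star_mul, hqp.1] at h1
    exact h1.symm
  set yk : α.ι → (H →L[ℂ] H) := fun k => α.u k * y * star (α.u k) with hyk
  have hykM : ∀ k, yk k ∈ M := fun k => mul_mem (mul_mem (huM k) hy) (star_mem (huM k))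
  set t : α.ι → ℂ := fun k => ((α.t k : ℝ) : ℂ) with ht
  have hts : ∑ k, t k = 1 := by
    rw [ht]
    simp only
    rw [← Complex.ofReal_sum, α.hs, Complex.ofReal_one]
  have hz : α.ap y = ∑ k, t k • yk k := hap y
  have hzs : star (α.ap y) = ∑ k, t k • star (yk k) := by
    rw [hz, star_sum]
    refine Finset.sum_congr rfl fun k _ => ?_
    rw [star_smul]
    congr 1
    exact Complex.conj_ofReal _
  -- the difference
  have hD : 0 ≤ ∑ k, t k • ((star (yk k) - star (α.ap y)) * q * (yk k - α.ap y)) := by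
    refine Finset.sum_nonneg fun k _ => ?_
    refine smul_nonneg ?_ ?_
    · exact Complex.zero_le_real.mpr (α.ht k)
    · have h1 : (star (yk k) - star (α.ap y)) * q * (yk k - α.ap y) =
          star (q * (yk k - α.ap y)) * (q * (yk k - α.ap y)) := by
        rw [star_mul q (yk k - α.ap y), star_sub (yk k) (α.ap y), hqp.1,
          mul_assoc (star (yk k) - star (α.ap y)) q (q * _),
          ← mul_assoc q q, hqp.2, mul_assoc]
      rw [h1]
      exact star_mul_self_nonneg _
  have hid := convex_id t hts yk (fun k => star (yk k)) q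
  rw [← hz, ← hzs] at hid
  rw [hid] at hD
  -- conjugate by q
  have hD2 : q * star (α.ap y) * q * α.ap y * q ≤
      ∑ k, t k • (q * star (yk k) * q * yk k * q) := by
    rw [← sub_nonneg]
    have h1 : ∑ k, t k • (q * star (yk k) * q * yk k * q) - q * star (α.ap y) * q * α.ap y * q =
        star q * (∑ k, t k • (star (yk k) * q * yk k) - star (α.ap y) * q * α.ap y) * q := by
      rw [hqp.1, mul_sub, sub_mul, Finset.mul_sum, Finset.sum_mul]
      congr 1
      · refine Finset.sum_congr rfl fun k _ => ?_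
        rw [mul_smul_comm, smul_mul_assoc]
        simp only [mul_assoc]
    rw [h1]
    exact star_left_conjugate_nonneg hD q
  have hM1 : α.ap y ∈ M := by
    rw [hz]
    exact sum_mem fun k _ => smul_mem' M _ (hykM k)
  have hM2 : ∀ k, q * star (yk k) * q * yk k * q ∈ M := fun k =>
    mul_mem (mul_mem (mul_mem (mul_mem hqM (star_mem (hykM k))) hqM) (hykM k)) hqM
  have hM3 : q * star y * q * y * q ∈ M :=
    mul_mem (mul_mem (mul_mem (mul_mem hqM (star_mem hy)) hqM) hy) hqM
  refine (E_mono hE (mul_mem (mul_mem (mul_mem (mul_mem hqM (star_mem hM1)) hqM) hM1) hqM)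
    (sum_mem fun k _ => smul_mem' M _ (hM2 k)) hD2).trans (le_of_eq ?_)
  rw [E_sum hE _ _ fun k => smul_mem' M _ (hM2 k), hap]
  refine Finset.sum_congr rfl fun k _ => ?_
  rw [hE.smul _ _ (hM2 k)]
  congr 1
  have h1 : q * star (yk k) * q * yk k * q =
      α.u k * (q * star y * q * y * q) * star (α.u k) := by
    have e1 : star (yk k) = α.u k * star y * star (α.u k) := by
      rw [hyk]
      simp only [star_mul, star_star, mul_assoc]
    have e2 := α.hq k
    have e3 := hus k
    have e4 := hut k
    calc q * star (yk k) * q * yk k * q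
        = (q * α.u k) * star y * ((star (α.u k) * q) * α.u k) * y * (star (α.u k) * q) := by
          rw [e1, hyk]
          simp only [mul_assoc]
      _ = (α.u k * q) * star y * (q * (star (α.u k) * α.u k)) * y * (q * star (α.u k)) := by
          rw [← e2, e3]
          simp only [mul_assoc]
      _ = α.u k * (q * star y * q * y * q) * star (α.u k) := by
          rw [e4, mul_one]
          simp only [mul_assoc]
  rw [h1]
  exact hE.bim _ (α.hN k) _ (star_mem (α.hN k)) _ hM3

end Pool.Agent.Y672.WQ
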