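import Pool.Agent.Y187.WQ.Stm

/-!
# Project WQ: sums of copies of a nearly tracial corner; exhausting sums (WQ-SUM, WQ-STR)
-/

set_option autoImplicit false

open scoped ComplexOrder InnerProductSpace
open Finset Filter

noncomputable section

namespace Pool.Agent.Y672.WQ

open H759R2.Kad (IsFac IsPr Prj Fnt)
open Pool.Agent.Y187.WQ

variable {H : Type} [NormedAddCommGroup H] [InnerProductSpace ℂ H] [CompleteSpace H]

section gen

variable {ι : Type} {w : ι → (H →L[ℂ] H)}

/-- A partial isometry of the family is fixed by the sum of the range projections. -/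
theorem sum_mul_w (s : Finset ι) (h1 : ∀ i, w i * star (w i) * w i = w i)
    (h2 : ∀ i j, i ≠ j → star (w i) * w j = 0) {i : ι} (hi : i ∈ s) :
    (∑ j ∈ s, w j * star (w j)) * w i = w i := by
  rw [Finset.sum_mul, Finset.sum_eq_single i]
  · exact h1 i
  · intro j _ hj
    rw [mul_assoc, h2 j i hj, mul_zero]
  · intro h
    exact (h hi).elim

theorem sum_mul_sum (s t : Finset ι) (hst : t ⊆ s) (h1 : ∀ i, w i * star (w i) * w i = w i)
    (h2 : ∀ i j, i ≠ j → star (w i) * w j = 0) :
    (∑ j ∈ s, w j * star (w j)) * (∑ j ∈ t, w j * star (w j)) = ∑ j ∈ t, w j * star (w j) := by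
  rw [Finset.mul_sum]
  refine Finset.sum_congr rfl fun i hi => ?_
  rw [← mul_assoc, sum_mul_w s h1 h2 (hst hi)]

theorem star_sum' (s : Finset ι) :
    star (∑ j ∈ s, w j * star (w j)) = ∑ j ∈ s, w j * star (w j) := by
  rw [star_sum]
  exact Finset.sum_congr rfl fun i _ => by rw [star_mul, star_star]

/-- The norm of a vector in the range. -/
theorem norm_sq_eq (s : Finset ι) (ζ : H) (hζ : (∑ j ∈ s, w j * star (w j)) ζ = ζ) :
    ‖ζ‖ ^ 2 = ∑ j ∈ s, ‖star (w j) ζ‖ ^ 2 := by
  have h1 : ⟪ζ, (∑ j ∈ s, w j * star (w j)) ζ⟫_ℂ = ∑ j ∈ s, ((‖star (w j) ζ‖ ^ 2 : ℝ) : ℂ) := by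
    rw [_root_.sum_apply, inner_sum]
    refine Finset.sum_congr rfl fun j _ => ?_
    change ⟪ζ, w j (star (w j) ζ)⟫_ℂ = _
    rw [← ContinuousLinearMap.adjoint_inner_left,
      ← ContinuousLinearMap.star_eq_adjoint, inner_self_eq_norm_sq_to_K]
    push_cast
    rfl
  rw [hζ, inner_self_eq_norm_sq_to_K, ← Complex.ofReal_sum] at h1
  exact Complex.ofReal_injective (by
    rw [← h1]
    push_cast
    rfl)

end gen

/-- Sums of copies of a nearly tracial corner. -/
theorem t_sum : W_sum := by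
  intro H _ _ _ N p hp hpp ξ hNT n w hw hort
  have hpi : ∀ i, w i * star (w i) * w i = w i := fun i => (hw i).2.1
  have hsub : ∀ i j, star (w i) * w j ∈ N := fun i j => mul_mem (star_mem (hw i).1) (hw j).1
  have hps : ∀ i, p * star (w i) = star (w i) := by
    intro i
    have h1 := congrArg star (hw i).2.2
    rwa [star_mul, hpp.1] at h1
  refine ⟨?_, ?_⟩
  · intro x hx hq
    set q : H →L[ℂ] H := ∑ j, w j * star (w j) with hqdef
    have hqq : q * q = q := sum_mul_sum univ univ (Finset.Subset.refl _) hpi hort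
    have hqs : star q = q := star_sum' univ
    have hqx : q * x = x := by
      rw [← hq, ← mul_assoc, ← mul_assoc, hqq]
    have hxq : x * q = x := by
      rw [← hq, mul_assoc, hqq]
    have hqsx : q * star x = star x := by
      have h1 := congrArg star hxq
      rwa [star_mul, hqs] at h1
    -- the matrix entries
    have hy : ∀ j k, ‖star (star (w j) * x * w k) ξ‖ ^ 2 ≤ 2 * ‖(star (w j) * x * w k) ξ‖ ^ 2 := by
      intro j k
      have h1 := hNT.tr (star (w j) * x * w k) (mul_mem (mul_mem (star_mem (hw j).1) hx) (hw k).1)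
        (by
          rw [mul_assoc, mul_assoc, (hw k).2.2, ← mul_assoc, ← mul_assoc, hps j])
      simpa using h1
    have e1 : ∀ j, ‖star x (w j ξ)‖ ^ 2 = ∑ k, ‖star (star (w j) * x * w k) ξ‖ ^ 2 := by
      intro j
      rw [norm_sq_eq (w := w) univ (star x (w j ξ)) (by
        have h1 := congrArg (fun T : H →L[ℂ] H => T (w j ξ)) hqsx
        exact h1)]
      refine Finset.sum_congr rfl fun k _ => ?_
      rw [star_mul, star_mul, star_star]
      rfl
    have e2 : ∀ k, ‖x (w k ξ)‖ ^ 2 = ∑ j, ‖(star (w j) * x * w k) ξ‖ ^ 2 := by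
      intro k
      rw [norm_sq_eq (w := w) univ (x (w k ξ)) (by
        have h1 := congrArg (fun T : H →L[ℂ] H => T (w k ξ)) hqx
        exact h1)]
      rfl
    simp only [e1, e2]
    rw [Finset.sum_comm (s := univ) (t := univ) (f := fun k j => ‖(star (w j) * x * w k) ξ‖ ^ 2),
      Finset.mul_sum]
    refine Finset.sum_le_sum fun j _ => ?_
    rw [Finset.mul_sum]
    exact Finset.sum_le_sum fun k _ => hy j k
  · intro x hx hq h0
    have h1 : ∀ j, x * w j = 0 := by
      intro j
      refine hNT.fa (x * w j) (mul_mem hx (hw j).1) ?_ ?_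
      · rw [mul_assoc, (hw j).2.2]
      · intro _
        exact h0 j
    rw [← hq, Finset.mul_sum]
    refine Finset.sum_eq_zero fun j _ => ?_
    rw [← mul_assoc, h1 j, zero_mul]

/-- Exhausting sums converge strongly to the unit. -/
theorem t_str : W_str := by
  intro H _ _ _ w hpi hort hex
  have hpr : ∀ n, IsPr (∑ i ∈ range n, w i * star (w i)) := fun n =>
    ⟨star_sum' _, sum_mul_sum _ _ (Finset.Subset.refl _) hpi hort⟩
  refine ⟨hpr, fun m n hmn => sum_mul_sum _ _ (Finset.range_mono hmn) hpi hort, ?_⟩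
  set q : ℕ → (H →L[ℂ] H) := fun n => ∑ i ∈ range n, w i * star (w i) with hqdef
  have hnorm : ∀ n (ζ : H), ‖q n ζ‖ ≤ ‖ζ‖ := by
    intro n ζ
    have h1 : ‖q n ζ‖ ^ 2 ≤ ‖ζ‖ * ‖q n ζ‖ := by
      have h2 : ⟪ζ, q n ζ⟫_ℂ = ⟪q n ζ, q n ζ⟫_ℂ := by
        have h3 : q n ζ = q n (q n ζ) := by
          have h4 := congrArg (fun T : H →L[ℂ] H => T ζ) (hpr n).2
          exact h4.symm
        conv_lhs => rw [h3]
        rw [← ContinuousLinearMap.adjoint_inner_left, ← ContinuousLinearMap.star_eq_adjoint]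
        have h5 : star (q n) = q n := (hpr n).1
        rw [h5]
      have h6 : ‖⟪ζ, q n ζ⟫_ℂ‖ ≤ ‖ζ‖ * ‖q n ζ‖ := norm_inner_le_norm _ _
      rw [h2, inner_self_eq_norm_sq_to_K] at h6
      simpa using h6
    by_cases h0 : ‖q n ζ‖ = 0
    · rw [h0]
      exact norm_nonneg _
    · have h7 : 0 < ‖q n ζ‖ := lt_of_le_of_ne (norm_nonneg _) (Ne.symm h0)
      rw [sq] at h1
      exact le_of_mul_le_mul_right h1 h7
  -- the subspace of convergence
  let K : Submodule ℂ H :=
    { carrier := {ζ | Tendsto (fun n => q n ζ) atTop (nhds ζ)}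
      add_mem' := by
        intro a b ha hb
        have h1 : Tendsto (fun n => q n a + q n b) atTop (nhds (a + b)) := Tendsto.add ha hb
        refine h1.congr fun n => ?_
        rw [map_add]
      zero_mem' := by
        change Tendsto (fun n => q n 0) atTop (nhds 0)
        simp only [map_zero]
        exact tendsto_const_nhds
      smul_mem' := by
        intro c a ha
        have h1 : Tendsto (fun n => c • q n a) atTop (nhds (c • a)) := Tendsto.const_smul ha c
        refine h1.congr fun n => ?_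
        rw [map_smul] }
  have hKc : IsClosed (K : Set H) := by
    rw [← closure_subset_iff_isClosed]
    intro ζ hζ
    change Tendsto (fun n => q n ζ) atTop (nhds ζ)
    rw [Metric.tendsto_atTop]
    intro ε hε
    obtain ⟨ζ', hζ', hd⟩ := Metric.mem_closure_iff.mp hζ (ε / 3) (by positivity)
    have h1 : Tendsto (fun n => q n ζ') atTop (nhds ζ') := hζ'
    rw [Metric.tendsto_atTop] at h1
    obtain ⟨n₀, hn₀⟩ := h1 (ε / 3) (by positivity)
    refine ⟨n₀, fun n hn => ?_⟩
    have h2 := hn₀ n hn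
    rw [dist_eq_norm] at hd h2 ⊢
    have h3 : q n ζ - ζ = q n (ζ - ζ') + (q n ζ' - ζ') - (ζ - ζ') := by
      rw [map_sub]
      abel
    rw [h3]
    calc ‖q n (ζ - ζ') + (q n ζ' - ζ') - (ζ - ζ')‖
        ≤ ‖q n (ζ - ζ') + (q n ζ' - ζ')‖ + ‖ζ - ζ'‖ := norm_sub_le _ _
      _ ≤ ‖q n (ζ - ζ')‖ + ‖q n ζ' - ζ'‖ + ‖ζ - ζ'‖ := by
          have := norm_add_le (q n (ζ - ζ')) (q n ζ' - ζ')
          linarith
      _ < ε := by
          have := hnorm n (ζ - ζ')
          linarith
  have hKcomp : CompleteSpace K := hKc.completeSpace_coe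
  have hKw : ∀ i η, w i η ∈ K := by
    intro i η
    change Tendsto (fun n => q n (w i η)) atTop (nhds (w i η))
    refine tendsto_const_nhds.congr' ?_
    filter_upwards [eventually_gt_atTop i] with n hn
    have h1 := sum_mul_w (w := w) (range n) hpi hort (mem_range.mpr hn)
    have h2 := congrArg (fun T : H →L[ℂ] H => T η) h1
    exact h2.symm
  have hKt : K = ⊤ := by
    rw [← Submodule.orthogonal_eq_bot_iff, Submodule.eq_bot_iff]
    intro ζ hζ
    rw [Submodule.mem_orthogonal] at hζ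
    have h1 : ((innerSL ℂ ζ).smulRight ζ : H →L[ℂ] H) = 0 := by
      refine hex _ fun i => ?_
      ext η
      have h2 : ⟪w i η, ζ⟫_ℂ = 0 := hζ _ (hKw i η)
      have h3 : ⟪ζ, w i η⟫_ℂ = 0 := by rw [← inner_conj_symm, h2, map_zero]
      change ⟪ζ, w i η⟫_ℂ • ζ = 0
      rw [h3, zero_smul]
    have h2 := congrArg (fun T : H →L[ℂ] H => T ζ) h1
    have h3 : ⟪ζ, ζ⟫_ℂ • ζ = 0 := h2
    rcases smul_eq_zero.mp h3 with h4 | h4
    · exact inner_self_eq_zero.mp h4
    · exact h4
  intro ζ
  have : ζ ∈ K := by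
    rw [hKt]
    exact Submodule.mem_top
  exact this

end Pool.Agent.Y672.WQ
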